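import Pool.Agent.Helper78.WK3.StA

/-!
# Project WK3, module EvU3: the map `u` commutes with the Hecke operators
-/

set_option autoImplicit false

namespace Pool.Agent.Helper90.WK3

open Pool.Agent.Helper78.WK3 Pool.Agent.Helper78.W3 Pool.Agent.Helper14.W3 Pool.Agent.Helper14.CV

variable {R : Type} [AddCommGroup R]

private theorem sym_u {n : ℕ} {G : ℤ → ℤ → R} (h : Sym3 0 n G) :
    Sym3 0 (n + 1) (act 3 0 0 1 G) := by
  refine h.act (by norm_num) ?_
  intro a b c d hd _ hc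
  obtain ⟨k, hk⟩ := hc
  refine ⟨a, 3 * b, 3 ^ n * k, d, ?_, by simp, ⟨k, rfl⟩, by ring, by ring, ?_, by ring⟩
  · rw [← hd, hk]
    ring
  · rw [hk]
    ring

/-- translations act trivially, also on the constant -/
private theorem trans_eq {n : ℕ} {G : ℤ → ℤ → R} (h : Sym3 0 n G) (t p q : ℤ)
    (hpq : p ≠ 0 ∨ q ≠ 0) : G (p + t * q) q = G p q := by
  obtain ⟨c, hc⟩ := h.2 1 t 0 1 (by ring) (by simp) (by simp)
  have h1 := hc 1 0 (Or.inl one_ne_zero)
  have h2 := hc p q hpq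
  unfold act at h1 h2
  have e1 : (1 : ℤ) * 1 + t * 0 = 1 := by ring
  have e2 : (0 : ℤ) * 1 + 1 * 0 = 0 := by ring
  have e3 : (1 : ℤ) * p + t * q = p + t * q := by ring
  have e4 : (0 : ℤ) * p + 1 * q = q := by ring
  rw [e1, e2] at h1
  rw [e3, e4] at h2
  have hc0 : c = 0 := by
    have := h1.symm
    simpa using this
  rw [h2, hc0, add_zero]

/-- multiplication by three permutes the residues modulo `l` -/
private theorem sum_three {l : ℕ} (hl : l.Prime) (hl3 : l ≠ 3) (h : ℤ → R)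
    (hper : ∀ j t : ℤ, h (j + l * t) = h j) :
    ∑ j ∈ Finset.range l, h (3 * (j : ℤ)) = ∑ j ∈ Finset.range l, h (j : ℤ) := by
  have hlpos : 0 < l := hl.pos
  have hcop : Nat.Coprime l 3 := (Nat.coprime_primes hl Nat.prime_three).2 hl3
  have hmaps : ∀ j ∈ Finset.range l, (3 * j) % l ∈ Finset.range l := fun j _ =>
    Finset.mem_range.2 (Nat.mod_lt _ hlpos)
  have hinj : Set.InjOn (fun j : ℕ => (3 * j) % l) (Finset.range l : Set ℕ) := by
    intro a ha b hb hab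
    have ha' := Finset.mem_range.1 (Finset.mem_coe.1 ha)
    have hb' := Finset.mem_range.1 (Finset.mem_coe.1 hb)
    have h1 : 3 * a ≡ 3 * b [MOD l] := hab
    have h2 : a ≡ b [MOD l] := Nat.ModEq.cancel_left_of_coprime hcop h1
    exact Nat.ModEq.eq_of_lt_of_lt h2 ha' hb'
  have hsurj : Set.SurjOn (fun j : ℕ => (3 * j) % l) (Finset.range l : Set ℕ)
      (Finset.range l : Set ℕ) :=
    Finset.surjOn_of_injOn_of_card_le _ hmaps hinj le_rfl
  refine Finset.sum_nbij (fun j : ℕ => (3 * j) % l) hmaps hinj hsurj ?_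
  intro j _
  have e : (3 * (j : ℤ)) = (((3 * j) % l : ℕ) : ℤ) + l * (((3 * j) / l : ℕ) : ℤ) := by
    have := Nat.mod_add_div (3 * j) l
    exact_mod_cast this.symm
  rw [e, hper]

private theorem tl_u {n : ℕ} {G : ℤ → ℤ → R} (h : Sym3 0 n G) {l : ℕ} (hl : l.Prime)
    (hl3 : l ≠ 3) : EqC (Tl l 1 (act 3 0 0 1 G)) (act 3 0 0 1 (Tl l 1 G)) := by
  refine EqC.of_eq fun p q hpq => ?_
  have hl0 : (l : ℤ) ≠ 0 := by exact_mod_cast hl.ne_zero
  have e0 : Tl l 1 (act 3 0 0 1 G) p q =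
      G (l * (3 * p)) q + ∑ j ∈ Finset.range l, G (3 * p + 3 * j * q) (l * q) := by
    unfold Tl act
    exact congrArg₂ (fun x y : R => x + y) (congrArg₂ G (by ring) (by ring))
      (Finset.sum_congr rfl fun j _ => congrArg₂ G (by ring) (by ring))
  have e1 : act 3 0 0 1 (Tl l 1 G) p q =
      G (l * (3 * p)) q + ∑ j ∈ Finset.range l, G (3 * p + j * q) (l * q) := by
    unfold Tl act
    exact congrArg₂ (fun x y : R => x + y) (congrArg₂ G (by ring) (by ring))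
      (Finset.sum_congr rfl fun j _ => congrArg₂ G (by ring) (by ring))
  rw [e0, e1]
  refine congrArg (fun y : R => G (l * (3 * p)) q + y) ?_
  by_cases hq : q = 0
  · refine Finset.sum_congr rfl fun j _ => ?_
    rw [hq]
    exact congrArg₂ G (by ring) (by ring)
  · have hlq : (l : ℤ) * q ≠ 0 := mul_ne_zero hl0 hq
    refine sum_three hl hl3 (fun j : ℤ => G (3 * p + j * q) (l * q)) ?_
    intro j t
    have e : 3 * p + (j + l * t) * q = (3 * p + j * q) + t * (l * q) := by ring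
    rw [e]
    exact trans_eq h t _ _ (Or.inr hlq)

private theorem tl_iter_u {n : ℕ} (hHkS : S3HkS) (i : ℕ) {G : ℤ → ℤ → R} (h : Sym3 0 n G) :
    EqC ((Tl 2 1)^[i] (act 3 0 0 1 G)) (act 3 0 0 1 ((Tl 2 1)^[i] G)) ∧
      Sym3 0 n ((Tl 2 1)^[i] G) := by
  induction i generalizing G with
  | zero => exact ⟨EqC.refl _, h⟩
  | succ i ih =>
    rw [Function.iterate_succ_apply, Function.iterate_succ_apply]
    have h1 : Sym3 0 n (Tl 2 1 G) := (hHkS R _ n G h).1 2 Nat.prime_two (by norm_num)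
    have h2 := (tl_u h Nat.prime_two (by norm_num)).Tl_iter (l := 2) (by norm_num) 1 i
    exact ⟨h2.trans (ih h1).1, (ih h1).2⟩

private theorem bo_u {n : ℕ} (hHkS : S3HkS) {G : ℤ → ℤ → R} (h : Sym3 0 n G) :
    EqC (Bo 1 (act 3 0 0 1 G)) (act 3 0 0 1 (Bo 1 G)) := by
  have h1 : Sym3 0 n (Tl 2 1 G) := (hHkS R _ n G h).1 2 Nat.prime_two (by norm_num)
  have h7 := tl_u h (l := 7) (by norm_num) (by norm_num)
  have h2 := (tl_u h Nat.prime_two (by norm_num)).Tl (l := 2) (by norm_num) 1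
  have h2' := h2.trans (tl_u h1 Nat.prime_two (by norm_num))
  exact (h7.add (EqC.refl (act 3 0 0 1 G))).sub h2'

private theorem bo_iter_u {n : ℕ} (hHkS : S3HkS) (j : ℕ) {G : ℤ → ℤ → R} (h : Sym3 0 n G) :
    EqC ((Bo 1)^[j] (act 3 0 0 1 G)) (act 3 0 0 1 ((Bo 1)^[j] G)) ∧
      Sym3 0 n ((Bo 1)^[j] G) := by
  induction j generalizing G with
  | zero => exact ⟨EqC.refl _, h⟩
  | succ j ih =>
    rw [Function.iterate_succ_apply, Function.iterate_succ_apply]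
    have h1 : Sym3 0 n (Bo 1 G) := (hHkS R _ n G h).2
    have h2 := (bo_u hHkS h).Bo_iter 1 j
    exact ⟨h2.trans (ih h1).1, (ih h1).2⟩

theorem hEvU3 (_hHk : S3Hk) (hHkS : S3HkS) : EvU3 := by
  intro R _ n G h
  refine ⟨sym_u h, fun i j => ?_⟩
  obtain ⟨h1, h2⟩ := tl_iter_u hHkS i h
  obtain ⟨h3, h4⟩ := bo_iter_u hHkS j h2
  have h5 := (h1.Bo_iter 1 j).trans h3
  have h6 := h5.diff (Or.inl one_ne_zero : (1 : ℤ) ≠ 0 ∨ (0 : ℤ) ≠ 0)
    (Or.inr one_ne_zero : (0 : ℤ) ≠ 0 ∨ (1 : ℤ) ≠ 0)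
  unfold ev3
  rw [h6]
  have h7 := h4.1 3 1 0 (by norm_num) (Or.inl one_ne_zero)
  unfold act
  have e1 : (3 : ℤ) * 1 + 0 * 0 = 3 * 1 := by ring
  have e2 : (0 : ℤ) * 1 + 1 * 0 = 3 * 0 := by ring
  have e3 : (3 : ℤ) * 0 + 0 * 1 = 0 := by ring
  have e4 : (0 : ℤ) * 0 + 1 * 1 = 1 := by ring
  rw [e1, e2, e3, e4, h7]

end Pool.Agent.Helper90.WK3
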